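import Pool.Agent.W661.RC.Stm3
import Pool.Agent.W465.RC.NIS

/-! RC-UNI (MP_f81d8e_an): a square matrix is close to a unitary matrix. -/

set_option autoImplicit false

open Matrix
open scoped ComplexOrder

namespace Pool.Agent.W625.RCUni
open Pool.Agent.W661.RC Pool.Agent.W465.RCNis

noncomputable section

theorem main : UniP := by
  intro d Y
  have hA : (Yᴴ * Y).IsHermitian := Matrix.isHermitian_conjTranspose_mul_self Y
  have hApsd : (Yᴴ * Y).PosSemidef := Matrix.posSemidef_conjTranspose_mul_self Y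
  set U : Mt d := (hA.eigenvectorUnitary : Mt d) with hU
  have hUU : Uᴴ * U = 1 := Unitary.coe_star_mul_self hA.eigenvectorUnitary
  have hUU' : U * Uᴴ = 1 := Unitary.coe_mul_star_self hA.eigenvectorUnitary
  set ev := hA.eigenvalues with hev
  have hev0 : ∀ k, 0 ≤ ev k := hApsd.eigenvalues_nonneg
  have hdiag : Uᴴ * (Yᴴ * Y) * U = diagonal fun k => ((ev k : ℝ) : ℂ) := by
    have h1 := hA.conjStarAlgAut_star_eigenvectorUnitary
    rw [Unitary.conjStarAlgAut_star_apply] at h1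
    exact h1
  set Z : Mt d := Y * U with hZ
  have hZZ : Zᴴ * Z = diagonal fun k => ((Real.sqrt (ev k) ^ 2 : ℝ) : ℂ) := by
    rw [hZ, Matrix.conjTranspose_mul]
    have : Uᴴ * Yᴴ * (Y * U) = Uᴴ * (Yᴴ * Y) * U := by simp only [Matrix.mul_assoc]
    rw [this, hdiag]
    congr 1
    funext k
    rw [Real.sq_sqrt (hev0 k)]
  obtain ⟨W, hWW, hWZ⟩ := exists_isom Z (fun k => Real.sqrt (ev k)) (fun k => Real.sqrt_nonneg _)
    hZZ (by simp)
  have hmem : W * Uᴴ ∈ Matrix.unitaryGroup (Fin d) ℂ := by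
    rw [Matrix.mem_unitaryGroup_iff']
    show (W * Uᴴ)ᴴ * (W * Uᴴ) = 1
    rw [Matrix.conjTranspose_mul, Matrix.conjTranspose_conjTranspose]
    calc U * Wᴴ * (W * Uᴴ) = U * (Wᴴ * W) * Uᴴ := by simp only [Matrix.mul_assoc]
      _ = 1 := by rw [hWW, Matrix.mul_one, hUU']
  refine ⟨⟨W * Uᴴ, hmem⟩, ?_⟩
  show hs (Y - W * Uᴴ) ≤ _
  have hinv : ∀ X : Mt d, hs (X * Uᴴ) = hs X := by
    intro X
    have h1 : ((hs (X * Uᴴ) : ℝ) : ℂ) = ((hs X : ℝ) : ℂ) := by
      rw [hs_eq, hs_eq, Matrix.conjTranspose_mul, Matrix.conjTranspose_conjTranspose]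
      have h2 : U * Xᴴ * (X * Uᴴ) = U * (Xᴴ * X * Uᴴ) := by simp only [Matrix.mul_assoc]
      rw [h2, Matrix.trace_mul_comm, Matrix.mul_assoc, hUU, Matrix.mul_one]
    exact_mod_cast h1
  have hinvl : ∀ X : Mt d, hs (U * X) = hs X := by
    intro X
    have h1 : ((hs (U * X) : ℝ) : ℂ) = ((hs X : ℝ) : ℂ) := by
      rw [hs_eq, hs_eq, Matrix.conjTranspose_mul]
      have h2 : Xᴴ * Uᴴ * (U * X) = Xᴴ * (Uᴴ * U) * X := by simp only [Matrix.mul_assoc]
      rw [h2, hUU, Matrix.mul_one]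
    exact_mod_cast h1
  have hYZ : Y = Z * Uᴴ := by rw [hZ, Matrix.mul_assoc, hUU', Matrix.mul_one]
  have e1 : hs (Y - W * Uᴴ) = hs (Z - W) := by
    conv_lhs => rw [hYZ, ← Matrix.sub_mul]
    exact hinv _
  have hdg : ∀ f : Fin d → ℝ, hs (diagonal fun k => ((f k : ℝ) : ℂ)) = ∑ k, f k ^ 2 := by
    intro f
    have h1 : ((hs (diagonal fun k => ((f k : ℝ) : ℂ)) : ℝ) : ℂ) = ((∑ k, f k ^ 2 : ℝ) : ℂ) := by
      rw [hs_eq, Matrix.diagonal_conjTranspose, Matrix.diagonal_mul_diagonal,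
        Matrix.trace_diagonal]
      push_cast
      apply Finset.sum_congr rfl
      intro k _
      simp only [Pi.star_apply, RCLike.star_def, Complex.conj_ofReal]
      ring
    exact_mod_cast h1
  have e4 : hs (Z - W) = ∑ k, (Real.sqrt (ev k) - 1) ^ 2 := by
    have h0 : Z - W = W * diagonal fun k => ((Real.sqrt (ev k) - 1 : ℝ) : ℂ) := by
      have h1 : W = W * diagonal fun _ : Fin d => (1 : ℂ) := by
        rw [Matrix.diagonal_one, Matrix.mul_one]
      rw [hWZ]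
      nth_rewrite 2 [h1]
      rw [← Matrix.mul_sub, Matrix.diagonal_sub]
      congr 2
      funext k
      push_cast
      rfl
    rw [h0]
    have h2 : hs (W * diagonal fun k => ((Real.sqrt (ev k) - 1 : ℝ) : ℂ)) =
        hs (diagonal fun k => ((Real.sqrt (ev k) - 1 : ℝ) : ℂ)) := by
      set D : Mt d := diagonal fun k => ((Real.sqrt (ev k) - 1 : ℝ) : ℂ)
      have h1 : ((hs (W * D) : ℝ) : ℂ) = ((hs D : ℝ) : ℂ) := by
        rw [hs_eq, hs_eq, Matrix.conjTranspose_mul]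
        have h2 : Dᴴ * Wᴴ * (W * D) = Dᴴ * (Wᴴ * W) * D := by simp only [Matrix.mul_assoc]
        rw [h2, hWW, Matrix.mul_one]
      exact_mod_cast h1
    rw [h2, hdg]
  have e5 : hs (Yᴴ * Y - 1) = ∑ k, (ev k - 1) ^ 2 := by
    have h0 : Yᴴ * Y - 1 = U * (diagonal fun k => ((ev k - 1 : ℝ) : ℂ)) * Uᴴ := by
      have h1 : (diagonal fun k => ((ev k - 1 : ℝ) : ℂ)) =
          (diagonal fun k => ((ev k : ℝ) : ℂ)) - 1 := by
        rw [← Matrix.diagonal_one, Matrix.diagonal_sub]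
        congr 1
        funext k
        push_cast
        rfl
      rw [h1, ← hdiag, Matrix.mul_sub, Matrix.sub_mul, Matrix.mul_one, hUU']
      congr 1
      calc Yᴴ * Y = 1 * (Yᴴ * Y) * 1 := by rw [Matrix.one_mul, Matrix.mul_one]
        _ = U * (Uᴴ * (Yᴴ * Y) * U) * Uᴴ := by
          rw [← hUU']; simp only [Matrix.mul_assoc]
    rw [h0, hinv, hinvl, hdg]
  rw [e1, e4, e5]
  apply Finset.sum_le_sum
  intro k _
  have h1 := Real.sqrt_nonneg (ev k)
  have h2 := Real.sq_sqrt (hev0 k)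
  set s := Real.sqrt (ev k)
  have h3 : ev k - 1 = (s - 1) * (s + 1) := by rw [← h2]; ring
  rw [h3, mul_pow]
  have h4 : 1 ≤ (s + 1) ^ 2 := by nlinarith
  nlinarith [sq_nonneg (s - 1)]

end

end Pool.Agent.W625.RCUni
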